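import Pool.Agent.H94.G4.CoreJ
import Pool.Agent.H94.G4.TE1
import Pool.Agent.H82.G4.Targets3

/-!
Group G4, `j` functions: the two-ends case, assembly. A copy of `Pool.Agent.H94.G4.pf_TENx`
(itself a copy of helper83's `Pool.Agent.H83.G.TEN.pf_TEN`).
-/

set_option autoImplicit false

namespace Pool.Agent.H94.G4

open Pool.Agent.H83.G Pool.Agent.H83.G.TEN Pool.Agent.H22.G4 MeasureTheory Set
open scoped ENNReal NNReal RealInnerProductSpace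

open scoped Classical in
/-- XQ: the extra constraint holds -/
def T_XQ (j m : ℕ) (XC : XCon j) : Prop := ∀ (L : ℕ) (β : E m → ℂ) (Ψ : Z m → ℂ) (ψ : Z m → ℝ)
  (K c₀ δ b₀ B : ℝ), 1 ≤ m → IsPU β → IsPsi Ψ ψ → 1 ≤ K → 0 < c₀ → 0 < δ → δ ≤ 1 / 100 →
  0 < b₀ → 1 ≤ B → ∀ N : ℕ, m + 3 ≤ N → ∃ C : ℝ, 1 ≤ C ∧ ∀ (κ R r A H : ℝ)
  (G : Fin j → Z m → ℂ) (c : Fin j → E m) (S : Fin j → Finset (Pk m)) (a b M : Fin j → ℝ)
  (QQ : Finset (Zi m)) (l k : Fin j → ℕ) (X : Finset (Z m)), 0 ≤ κ → κ ≤ 3 / 8 →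
  1 ≤ R → C ≤ R ^ δ → 0 < A → 0 < H → b₀ * A ≤ R ^ δ * H → (∀ i, ‖c i‖ ≤ 4 * m + 4) →
  (∀ i i', i ≠ i' → 4 / K ≤ ‖c i - c i'‖) →
  (∀ η : Fin j → E m, (∀ i, ‖η i - c i‖ ≤ 2 / K) → Ind c₀ η) →
  (∀ i, 0 < a i ∧ 1 ≤ b i ∧ 0 < M i) → (∀ i, Cls L κ R A (G i)) → Sep X → X.Nonempty →
  (∀ i, ∀ W ∈ S i, W.1 ∈ Ks m (sR R) ∧ ‖ctr (sR R) W.1 - c i‖ ≤ 1 / K + sR R ∧
    al N β R δ (G i) W ≤ 2 * a i) →
  (∀ i, ((S i).card : ℝ) ≤ B * R ^ (2 * ((m : ℝ) + 2))) →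
  (∀ i, ∀ W ∈ S i, (((S i).filter (fun W' => tb R W' = tb R W)).card : ℝ) ≤ 2 * b i) →
  (∀ i, ∀ z ∈ X, ((((S i).image (tb R)).filter (fun T => Inc R δ T (cb (Real.sqrt R) z) ∧
    Sh QQ R r δ (l i) (k i) T (bl R r (cb (Real.sqrt R) z)))).card : ℝ) ≤ 2 * M i) →
  (∀ i, ∀ z ∈ X, H ≤ ‖∑ W ∈ SB QQ R r δ (l i) (k i) (S i) (bl R r (cb (Real.sqrt R) z)),
    Fp β ψ R δ (G i) W z‖) →
  ∀ L' : ℝ, C * R ^ (2 * lo m * δ) ≤ L' →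
    XC X.card H (X.image (cb (Real.sqrt R))).card A L' R M b a

theorem xq_XT (j m : ℕ) : T_XQ j m (XT j) := by
  intro L β Ψ ψ K c₀ δ b₀ B _ _ _ _ _ _ _ _ _ N _
  exact ⟨1, le_rfl, by intros; trivial⟩

/-- the two-ends case with `j` transversal functions, for fixed `m`, `L`, `x` -/
def TENj (j m L : ℕ) (x : ℝ) : Prop := ∀ (β : E m → ℂ) (Ψ : Z m → ℂ) (ψ : Z m → ℝ)
  (K c₀ δ ε₀ b₀ B : ℝ),
  IsPU β → IsPsi Ψ ψ → 1 ≤ K → 0 < c₀ → 0 < δ → δ ≤ 1 / 100 → 0 < ε₀ → ε₀ ≤ 1 / 4 → 0 < b₀ →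
  1 ≤ B → ∃ N₀ : ℕ, ∀ N : ℕ, N₀ ≤ N → ∃ C : ℝ, 1 ≤ C ∧
  ∀ (κ R A H En : ℝ) (G : Fin j → Z m → ℂ) (c : Fin j → E m) (z₀ : Z m)
  (S : Fin j → Finset (Pk m)) (a b : Fin j → ℝ) (l k : Fin j → ℕ) (QQ : Finset (Zi m)) (ν : ℝ)
  (X : Finset (Z m)), 0 ≤ κ → κ ≤ 3 / 8 → 1 ≤ R → C ≤ R ^ δ → 0 < A → 0 < H → b₀ * A ≤ R ^ δ * H →
  0 < En → (∀ i, Cls L κ R A (G i)) → (∀ i, ‖c i‖ ≤ 4 * m + 4) →
  (∀ i j, i ≠ j → 4 / K ≤ ‖c i - c j‖) →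
  (∀ η : Fin j → E m, (∀ i, ‖η i - c i‖ ≤ 2 / K) → Ind c₀ η) →
  Sep X → (∀ z ∈ X, ‖z - z₀‖ ≤ R) →
  (∀ i, ∀ W ∈ S i, W.1 ∈ Ks m (sR R) ∧ (∃ z, ‖z - z₀‖ ≤ R ∧ near R δ W z) ∧
    ‖ctr (sR R) W.1‖ ≤ 3 ∧ ‖ctr (sR R) W.1 - c i‖ ≤ 1 / K + sR R ∧
    a i ≤ al N β R δ (G i) W ∧ al N β R δ (G i) W ≤ 2 * a i) →
  (∀ i, ((S i).card : ℝ) ≤ B * R ^ (2 * ((m : ℝ) + 2))) →
  (∀ i, 0 < a i ∧ 1 ≤ b i) →
  (∀ i, ∀ W ∈ S i, b i ≤ (((S i).filter (fun W' => tb R W' = tb R W)).card : ℝ) ∧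
    (((S i).filter (fun W' => tb R W' = tb R W)).card : ℝ) ≤ 2 * b i) →
  (∀ i, ∑ W ∈ S i, al N β R δ (G i) W ^ 2 * R ^ (((m : ℝ) + 2) / 2) ≤ En) →
  En ≤ B * R ^ (lo m * δ) * (A ^ 2 * R ^ ((m : ℝ) + 2)) →
  0 < ν → ν * QQ.card ≤ R ^ δ * X.card →
  (∀ q, ((X.filter (fun z => cb (Real.sqrt R) z = q)).card : ℝ) ≤ 2 * ν) →
  (∀ z ∈ X, cb (Real.sqrt R) z ∈ QQ) →
  (∀ q ∈ QQ, ‖Real.sqrt R • zc q - z₀‖ ≤ ((m : ℝ) + 2) * R) →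
  (∀ i, C ≤ (2 : ℝ) ^ k i) →
  (∀ z ∈ X, ∀ i, H ≤ ‖∑ W ∈ SB QQ R (R ^ (1 - ε₀)) δ (l i) (k i) (S i)
    (bl R (R ^ (1 - ε₀)) (cb (Real.sqrt R) z)), Fp β ψ R δ (G i) W z‖) →
  (X.card : ℝ) * H ^ (2 + x) ≤
    C * R ^ ((lb m - 1) * (δ + ε₀)) * A ^ x * R ^ (m * x / 2 - 1) * En

theorem tenq_of_tenj (m L : ℕ) (x : ℝ) (h : TENj 4 m L x) : Pool.Agent.H82.G4.TENq m L x := h

open Classical in
theorem pf_TENJ (hPG4 : Pool.Agent.H22.G.T_PG4) (hHG2 : Pool.Agent.H22.G.T_HG2)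
    (hMU : Pool.Agent.H22.G.T_MU) (hHB : Pool.Agent.H22.G.T_HB)
    (hCBN : T_CBN) (hTE1 : T_TE1x) (hTE2 : T_TE2) (hTEJ : T_TEJ) (hTLS : T_TLS)
    (hAMU : T_AMU) (j m L : ℕ) (xx : ℝ) (XC : XCon j) (hm1 : 1 ≤ m) (hj : j ≤ m + 2)
    (hXQ : T_XQ j m XC) (hALG : T_ALGX j m xx XC) : TENj j m L xx := by
  intro β Ψ ψ K c₀ δ ε₀ b₀ B hβ hΨ hK hc₀ hδ hδ' hε hε' hb₀ hB
  obtain ⟨N₁, hN₁⟩ := hTE1 m L β Ψ ψ δ ε₀ B hm1 hβ hΨ hδ hδ' hε hε' hB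
  refine ⟨max N₁ (m + 3), fun N hN => ?_⟩
  have hNm : m + 3 ≤ N := (le_max_right _ _).trans hN
  obtain ⟨C₁, hC₁, h1⟩ := hN₁ N ((le_max_left _ _).trans hN)
  obtain ⟨C₂', hC₂', h2'⟩ := hTE2 m L β Ψ ψ δ b₀ B hm1 hβ hΨ hδ hδ' hb₀ hB N hNm
  obtain ⟨C₁₀, hC₁₀, h10⟩ := hXQ L β Ψ ψ K c₀ δ b₀ B hm1 hβ hΨ hK hc₀ hδ hδ' hb₀ hB N hNm
  obtain ⟨C₂, hC₂, hC₂₁, hC₂₂⟩ : ∃ C₂ : ℝ, 1 ≤ C₂ ∧ C₂' ≤ C₂ ∧ C₁₀ ≤ C₂ :=
    ⟨C₂' + C₁₀, by linarith, by linarith, by linarith⟩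
  obtain ⟨C₃, hC₃, h3⟩ := hTEJ m j c₀ hj hc₀
  obtain ⟨C₄, hC₄, h4⟩ := hHB m K hK
  obtain ⟨C₅, hC₅, h5⟩ := hMU m
  obtain ⟨C₆, hC₆, h6⟩ := hHG2 m
  obtain ⟨C₇, hC₇, h7⟩ := hTLS m L N β Ψ ψ δ 1 hβ hΨ hδ (by linarith) hNm
  obtain ⟨C₈, hC₈, h8⟩ := hAMU m L N β δ hβ hδ.le hNm
  obtain ⟨C₉, hC₉, h9⟩ := logn (2 * ((m : ℝ) + 2)) B δ (by positivity) hB hδ (2 * j)
  obtain ⟨hcb, hinc, C₀, hC₀, -, -⟩ := hCBN m
  obtain ⟨CL, C, k0, k1, k2, k3, k4, k5, k6, k8, kB, hC1, g1, g2, g4, g7, gK, g9⟩ :=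
    constsJ K b₀ B C₁ C₂ C₃ C₄ C₅ C₆ C₇ C₈ C₉ hK hb₀ hB hC₁ hC₂ hC₃ hC₄ hC₅ hC₆ hC₇ hC₈ hC₉
  refine ⟨C, hC1, ?_⟩
  intro κ R A H En G c z₀ S a b l k QQ ν X hκ0 hκ hR1 hCR hA hH hAH hEn hG hc hsep hind hX hXz hS
    hScard hab hb hE hEB hν hνQ hνX hXQ hQz hk hXF
  have hR0 : 0 < R := lt_of_lt_of_le one_pos hR1
  have hRδ : 1 ≤ R ^ δ := hC1.trans hCR
  have hκ' : κ ≤ 1 / 2 := hκ.trans (by norm_num)
  -- caps
  have hsq : 2 * K ≤ Real.sqrt R := by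
    have e2 : R ^ δ ≤ R ^ (1 / 2 : ℝ) :=
      Real.rpow_le_rpow_of_exponent_le hR1 (hδ'.trans (by norm_num))
    rw [Real.sqrt_eq_rpow]; exact gK.trans (hCR.trans e2)
  have hsR : sR R ≤ 1 / (2 * K) := by
    unfold sR
    rw [one_div]
    exact inv_anti₀ (by linarith) hsq
  have hS3 : ∀ i, ∀ W ∈ S i, ‖ctr (sR R) W.1‖ ≤ 3 := fun i W hW => (hS i W hW).2.2.1
  have hSsep : ∀ i i', i ≠ i' → ∀ W ∈ S i, ∀ W' ∈ S i',
      1 / K ≤ ‖ctr (sR R) W.1 - ctr (sR R) W'.1‖ := fun i i' hij W hW W' hW' =>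
    sep_caps K (sR R) _ _ (c i) (c i') hK hsR (hS i W hW).2.2.2.1 (hS i' W' hW').2.2.2.1
      (hsep i i' hij)
  have hSind : ∀ W : Fin j → Pk m, (∀ i, W i ∈ S i) →
      Ind c₀ fun i => ctr (sR R) (W i).1 := by
    intro W hW
    refine hind _ fun i => ((hS i (W i) (hW i)).2.2.2.1).trans ?_
    have e1 : (2 : ℝ) / K = 1 / K + 1 / K := by ring
    have e2 : 1 / (2 * K) ≤ 1 / K := by
      apply one_div_le_one_div_of_le <;> linarith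
    rw [e1]
    linarith
  have e9 : C₇ / b₀ < R ^ δ := g7.trans_le hCR
  -- numbers
  obtain ⟨n, hn1, hn2⟩ := h9 R hR1
  have hSn : ∀ i, (S i).card ≤ 2 ^ n := by
    intro i
    have := (hScard i).trans hn1
    exact_mod_cast this
  have hnear : ∀ (z : Z m) (W : Pk m), near R δ W z → Inc R δ (tb R W) (cb (Real.sqrt R) z) :=
    fun z W hW => hinc R δ W z hR1 hδ.le hW
  have hv₁1 : ∀ i, ∀ z ∈ X, 1 ≤ ((SB QQ R (R ^ (1 - ε₀)) δ (l i) (k i) (S i)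
      (bl R (R ^ (1 - ε₀)) (cb (Real.sqrt R) z))).filter (fun W => near R δ W z)).card := by
    intro i z hz
    refine near_pos hb₀ hA hR1 hδ' hC₇ hAH e9 _ z ?_ (hXF z hz i)
    exact (h7 κ R A (G i) _ z hκ0 hκ' hR1 hA (hG i)
      (fun W hW => (hS i W (mem_SB.1 hW).1).1)).1
  have hv₂1 : ∀ i, ∀ z ∈ X, 1 ≤ (((S i).image (tb R)).filter (fun T =>
      Inc R δ T (cb (Real.sqrt R) z) ∧ Sh QQ R (R ^ (1 - ε₀)) δ (l i) (k i) T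
        (bl R (R ^ (1 - ε₀)) (cb (Real.sqrt R) z)))).card := by
    intro i z hz
    exact tubes_pos (S i) QQ R _ δ (l i) (k i) z _ (hnear z) (hv₁1 i z hz)
  -- pigeonhole
  obtain ⟨X₁, M₁, hX₁, hM₁, hX₁c, hX₁M⟩ := pg hPG4 n j X
    (fun i z => ((SB QQ R (R ^ (1 - ε₀)) δ (l i) (k i) (S i)
      (bl R (R ^ (1 - ε₀)) (cb (Real.sqrt R) z))).filter (fun W => near R δ W z)).card)
    (fun z hz i => ⟨hv₁1 i z hz, by
      refine le_trans (Finset.card_le_card ?_) (hSn i)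
      intro W hW
      exact (mem_SB.1 (Finset.mem_filter.1 hW).1).1⟩)
  obtain ⟨X₂, M₂, hX₂, hM₂, hX₂c, hX₂M⟩ := pg hPG4 n j X₁
    (fun i z => (((S i).image (tb R)).filter (fun T =>
      Inc R δ T (cb (Real.sqrt R) z) ∧ Sh QQ R (R ^ (1 - ε₀)) δ (l i) (k i) T
        (bl R (R ^ (1 - ε₀)) (cb (Real.sqrt R) z)))).card)
    (fun z hz i => ⟨hv₂1 i z (hX₁ hz), by
      refine le_trans (Finset.card_le_card (Finset.filter_subset _ _)) ?_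
      exact Finset.card_image_le.trans (hSn i)⟩)
  have hX₂X : X₂ ⊆ X := hX₂.trans hX₁
  have hXc' : (X.card : ℝ) ≤ C₉ * R ^ δ * X₂.card := by
    have a1 : X.card ≤ (n + 1) ^ j * ((n + 1) ^ j * X₂.card) :=
      hX₁c.trans (Nat.mul_le_mul_left _ hX₂c)
    have a2 : (X.card : ℝ) ≤ ((n : ℝ) + 1) ^ j * (((n : ℝ) + 1) ^ j * X₂.card) := by
      exact_mod_cast a1
    calc (X.card : ℝ) ≤ ((n : ℝ) + 1) ^ j * (((n : ℝ) + 1) ^ j * X₂.card) := a2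
      _ = ((n : ℝ) + 1) ^ (2 * j) * X₂.card := by rw [two_mul, pow_add]; ring
      _ ≤ C₉ * R ^ δ * X₂.card := mul_le_mul_of_nonneg_right hn2 (by positivity)
  have hX₂M₁ : ∀ z ∈ X₂, ∀ i, (M₁ i : ℝ) ≤ (((SB QQ R (R ^ (1 - ε₀)) δ (l i) (k i) (S i)
      (bl R (R ^ (1 - ε₀)) (cb (Real.sqrt R) z))).filter (fun W => near R δ W z)).card : ℝ) ∧
      (((SB QQ R (R ^ (1 - ε₀)) δ (l i) (k i) (S i)
      (bl R (R ^ (1 - ε₀)) (cb (Real.sqrt R) z))).filter (fun W => near R δ W z)).card : ℝ) ≤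
        2 * (M₁ i : ℝ) := by
    intro z hz i
    have := hX₁M z (hX₂ hz) i
    exact ⟨by exact_mod_cast this.1, by exact_mod_cast this.2.le⟩
  have hX₂M₂ : ∀ z ∈ X₂, ∀ i, (M₂ i : ℝ) ≤ ((((S i).image (tb R)).filter (fun T =>
      Inc R δ T (cb (Real.sqrt R) z) ∧ Sh QQ R (R ^ (1 - ε₀)) δ (l i) (k i) T
        (bl R (R ^ (1 - ε₀)) (cb (Real.sqrt R) z)))).card : ℝ) ∧
      ((((S i).image (tb R)).filter (fun T =>
      Inc R δ T (cb (Real.sqrt R) z) ∧ Sh QQ R (R ^ (1 - ε₀)) δ (l i) (k i) T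
        (bl R (R ^ (1 - ε₀)) (cb (Real.sqrt R) z)))).card : ℝ) ≤ 2 * (M₂ i : ℝ) := by
    intro z hz i
    have := hX₂M z hz i
    exact ⟨by exact_mod_cast this.1, by exact_mod_cast this.2.le⟩
  have hM₁' : ∀ i, (1 : ℝ) ≤ (M₁ i : ℝ) := fun i => by exact_mod_cast hM₁ i
  have hM₂' : ∀ i, (1 : ℝ) ≤ (M₂ i : ℝ) := fun i => by exact_mod_cast hM₂ i
  clear hX₁M hX₂M hX₁c hX₂c hv₁1 hv₂1
  -- empty case
  rcases Finset.eq_empty_or_nonempty X₂ with hemp | ⟨z₁, hz₁⟩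
  · have h0 : (X.card : ℝ) = 0 := by
      rw [hemp] at hXc'
      have a1 : (0 : ℝ) ≤ X.card := by positivity
      simp only [Finset.card_empty, Nat.cast_zero, mul_zero] at hXc'
      linarith
    rw [h0, zero_mul]
    positivity
  have hN0 : (0 : ℝ) < X₂.card := by
    have : 0 < X₂.card := Finset.card_pos.2 ⟨z₁, hz₁⟩
    exact_mod_cast this
  have hQ0 : (0 : ℝ) < (X₂.image (cb (Real.sqrt R))).card := by
    have : 0 < (X₂.image (cb (Real.sqrt R))).card :=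
      Finset.card_pos.2 ⟨_, Finset.mem_image_of_mem _ hz₁⟩
    exact_mod_cast this
  have hSne : ∀ i, ∃ W, W ∈ S i := by
    intro i
    have a1 : (1 : ℝ) ≤ _ := (hM₂' i).trans (hX₂M₂ z₁ hz₁ i).1
    have a2 : 0 < (((S i).image (tb R)).filter (fun T =>
      Inc R δ T (cb (Real.sqrt R) z₁) ∧ Sh QQ R (R ^ (1 - ε₀)) δ (l i) (k i) T
        (bl R (R ^ (1 - ε₀)) (cb (Real.sqrt R) z₁)))).card := by
      have : (0 : ℝ) < _ := lt_of_lt_of_le one_pos a1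
      exact_mod_cast this
    obtain ⟨T, hT⟩ := Finset.card_pos.1 a2
    obtain ⟨W, hW, -⟩ := Finset.mem_image.1 (Finset.mem_filter.1 hT).1
    exact ⟨W, hW⟩
  have ht0 : ∀ i, (0 : ℝ) < ((S i).image (tb R)).card := by
    intro i
    obtain ⟨W, hW⟩ := hSne i
    have : 0 < ((S i).image (tb R)).card := Finset.card_pos.2 ⟨_, Finset.mem_image_of_mem _ hW⟩
    exact_mod_cast this
  have hX₂sep : Sep X₂ := fun z hz z' hz' => hX z (hX₂X hz) z' (hX₂X hz')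
  refine final_numJ m xx δ ε₀ R CL C C₉ A En X.card X₂.card H (1000 * ((m : ℝ) + 2)) hδ hε hR1 hA
    hEn hC₉ rfl g9 k0 hH hXc' ?_
  refine corealgJ j m hj xx XC hALG δ ε₀ R CL C₁ C₂ C₃ C₄ C₅ C₆ C₈ C₉ B A En X₂.card
    (X₂.image (cb (Real.sqrt R))).card H (1000 * ((m : ℝ) + 2)) (fun i => (M₁ i : ℝ))
    (fun i => (M₂ i : ℝ)) (fun i => (((S i).image (tb R)).card : ℝ)) b a
    (fun i => ((S i).card : ℝ)) rfl hδ hε hR1 hA hEn hN0 hQ0 hH k0 k1 k2 k3 k4 k5 k6 k8 kB hC₁ hC₂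
    hC₃ hC₄ hC₅ hC₆ hC₉ hB (fun i => lt_of_lt_of_le one_pos (hM₁' i))
    (fun i => lt_of_lt_of_le one_pos (hM₂' i)) ht0
    (fun i => (hab i).2) (fun i => (hab i).1) ?_ hEB ?_ ?_ ?_ ?_ ?_ ?_ ?_ ?_
    ?_
  · intro i
    exact ineqE (S i) (tb R) (fun W => al N β R δ (G i) W) m (a i) (b i) R En hR1 (hab i).1
      (fun W hW => (hb i W hW).1) (fun W hW => (hS i W hW).2.2.2.2.1) (hE i)
  · -- MU
    intro i
    refine h5 R δ (M₂ i) z₀ ((S i).image (tb R)) (X₂.image (cb (Real.sqrt R)))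
      (fun T q => Sh QQ R (R ^ (1 - ε₀)) δ (l i) (k i) T (bl R (R ^ (1 - ε₀)) q)) hR1 hδ.le
      ?_ ?_ ?_
    · intro T hT
      obtain ⟨W, hW, rfl⟩ := Finset.mem_image.1 hT
      exact hS3 i W hW
    · intro q hq
      obtain ⟨z, hz, rfl⟩ := Finset.mem_image.1 hq
      exact hQz _ (hXQ z (hX₂X hz))
    · intro q hq
      obtain ⟨z, hz, rfl⟩ := Finset.mem_image.1 hq
      exact (hX₂M₂ z hz i).1
  · -- HB
    intro i i' hij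
    have hQcard : (QQ.card : ℝ) ≤ 2 * (C₉ * R ^ (2 * δ)) * (X₂.image (cb (Real.sqrt R))).card := by
      have a1 : (X₂.card : ℝ) ≤ (X₂.image (cb (Real.sqrt R))).card * (2 * ν) := by
        refine card_tb' X₂ (cb (Real.sqrt R)) (2 * ν) (fun z hz => ?_)
        refine le_trans ?_ (hνX (cb (Real.sqrt R) z))
        have : (X₂.filter (fun z' => cb (Real.sqrt R) z' = cb (Real.sqrt R) z)) ⊆
          X.filter (fun z' => cb (Real.sqrt R) z' = cb (Real.sqrt R) z) :=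
          Finset.filter_subset_filter _ hX₂X
        have b1 := Finset.card_le_card this
        have b2 : ((X₂.filter (fun z' => cb (Real.sqrt R) z' = cb (Real.sqrt R) z)).card : ℝ) ≤
          ((X.filter (fun z' => cb (Real.sqrt R) z' = cb (Real.sqrt R) z)).card : ℝ) := by
          exact_mod_cast b1
        convert b2
      have a2 : ν * QQ.card ≤ ν * (2 * (C₉ * R ^ (2 * δ)) *
          (X₂.image (cb (Real.sqrt R))).card) := by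
        calc ν * QQ.card ≤ R ^ δ * X.card := hνQ
          _ ≤ R ^ δ * (C₉ * R ^ δ * X₂.card) := by gcongr
          _ ≤ R ^ δ * (C₉ * R ^ δ * ((X₂.image (cb (Real.sqrt R))).card * (2 * ν))) := by gcongr
          _ = ν * (2 * (C₉ * (R ^ δ * R ^ δ)) * (X₂.image (cb (Real.sqrt R))).card) := by ring
          _ = _ := by rw [← Real.rpow_add hR0, two_mul δ]
      exact le_of_mul_le_mul_left a2 hν
    have key := h4 R δ ε₀ (2 * (C₉ * R ^ (2 * δ))) (M₂ i) (M₂ i') z₀ ((S i).image (tb R))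
      ((S i').image (tb R)) QQ (X₂.image (cb (Real.sqrt R)))
      (Sh QQ R (R ^ (1 - ε₀)) δ (l i) (k i)) (Sh QQ R (R ^ (1 - ε₀)) δ (l i') (k i')) (k i') (l i')
      hR1 hδ.le hε.le (by linarith) (by positivity) (by positivity) (by positivity) ?_ ?_ ?_ hQz
      ?_ hQcard ?_ ?_ ?_ ?_ (g4.trans (hk i'))
    · exact key
    · intro T hT
      obtain ⟨W, hW, rfl⟩ := Finset.mem_image.1 hT
      exact hS3 i W hW
    · intro T hT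
      obtain ⟨W, hW, rfl⟩ := Finset.mem_image.1 hT
      exact hS3 i' W hW
    · intro T hT T' hT'
      obtain ⟨W, hW, rfl⟩ := Finset.mem_image.1 hT
      obtain ⟨W', hW', rfl⟩ := Finset.mem_image.1 hT'
      exact hSsep i i' hij W hW W' hW'
    · intro q hq
      obtain ⟨z, hz, rfl⟩ := Finset.mem_image.1 hq
      exact hXQ z (hX₂X hz)
    · intro q hq
      obtain ⟨z, hz, rfl⟩ := Finset.mem_image.1 hq
      exact (hX₂M₂ z hz i).1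
    · intro q hq
      obtain ⟨z, hz, rfl⟩ := Finset.mem_image.1 hq
      exact (hX₂M₂ z hz i').1
    · intro T _ B' hB'
      exact (sh_counts QQ R (R ^ (1 - ε₀)) δ (l i') (k i') T B' hB').1
    · intro T _ B' hB'
      exact (sh_counts QQ R (R ^ (1 - ε₀)) δ (l i') (k i') T B' hB').2
  · -- LW
    exact h3 R (R ^ (1 - ε₀)) δ S b (fun i => (M₂ i : ℝ)) (fun i => (M₁ i : ℝ)) QQ l k X₂ hR1 hδ.le
      hX₂sep hS3 hSind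
      (fun i => ⟨lt_of_lt_of_le one_pos (hab i).2, lt_of_lt_of_le one_pos (hM₂' i),
        lt_of_lt_of_le one_pos (hM₁' i)⟩)
      (fun i W hW => (hb i W hW).2) (fun z hz i => (hX₂M₂ z hz i).2)
      (fun z hz i => (hX₂M₁ z hz i).1)
  · -- L2
    intro i
    refine (h2' κ R (R ^ (1 - ε₀)) A H (a i) (b i) (M₂ i) (G i) (S i) QQ (l i) (k i) X₂ hκ0 hκ hR1
      (hC₂₁.trans (g2.trans hCR)) hA hH hAH (hab i).1 (hab i).2 (lt_of_lt_of_le one_pos (hM₂' i))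
      (hG i) hX₂sep (fun W hW => ⟨(hS i W hW).1, (hS i W hW).2.2.2.2.2⟩) (hScard i)
      (fun W hW => (hb i W hW).2) (fun z hz => (hX₂M₂ z hz i).2)
      (fun z hz => hXF z (hX₂X hz) i)).trans ?_
    have q1 := (hab i).1
    have q2 : 0 < b i := lt_of_lt_of_le one_pos (hab i).2
    have q3 : 0 < (M₂ i : ℝ) := lt_of_lt_of_le one_pos (hM₂' i)
    gcongr
  · -- RD
    intro i
    exact h1 κ R A H (a i) (M₁ i) (G i) z₀ (S i) QQ (l i) (k i) X₂ hκ0 hκ hR1 (g1.trans hCR) hA hH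
      (hab i).1 (hM₁' i) (hG i) hX₂sep (fun z hz => hXz z (hX₂X hz))
      (fun W hW => ⟨(hS i W hW).1, (hS i W hW).2.2.2.2.2⟩) (hScard i)
      (fun z hz => hXQ z (hX₂X hz)) hQz (fun z hz => (hX₂M₁ z hz i).2)
      (fun z hz => hXF z (hX₂X hz) i)
  · intro i
    exact card_tb' (S i) (tb R) (2 * b i) (fun W hW => (hb i W hW).2)
  · -- M1 ≤ M
    intro i
    have a1 := count_near (S i) QQ R (R ^ (1 - ε₀)) δ (l i) (k i) z₁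
      (bl R (R ^ (1 - ε₀)) (cb (Real.sqrt R) z₁)) (C₆ * R ^ (((m : ℝ) + 2) * δ)) (by positivity)
      (hnear z₁) (fun k' S' hS' => (h6 R δ hR1 hδ.le).1 k' z₁ S' hS')
    refine ((hX₂M₁ z₁ hz₁ i).1.trans a1).trans ?_
    exact mul_le_mul_of_nonneg_right (hX₂M₂ z₁ hz₁ i).2 (by positivity)
  · intro i
    obtain ⟨W, hW⟩ := hSne i
    exact (hS i W hW).2.2.2.2.1.trans (h8 κ R A (G i) W hκ0 hκ' hR1 hA (hG i)).1
  · -- the extra constraint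
    intro L' hL'
    exact h10 κ R (R ^ (1 - ε₀)) A H G c S a b (fun i => (M₂ i : ℝ)) QQ l k X₂ hκ0 hκ hR1
      (hC₂₂.trans (g2.trans hCR)) hA hH hAH hc hsep hind
      (fun i => ⟨(hab i).1, (hab i).2, lt_of_lt_of_le one_pos (hM₂' i)⟩) hG hX₂sep ⟨z₁, hz₁⟩
      (fun i W hW => ⟨(hS i W hW).1, (hS i W hW).2.2.2.1, (hS i W hW).2.2.2.2.2⟩) hScard
      (fun i W hW => (hb i W hW).2) (fun i z hz => (hX₂M₂ z hz i).2)
      (fun i z hz => hXF z (hX₂X hz) i) L' (le_trans (by gcongr) hL')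

/-- TEN43: four functions, `m = 3`, `x = 8/9` -/
theorem pf_TEN43 (hPG4 : Pool.Agent.H22.G.T_PG4) (hHG2 : Pool.Agent.H22.G.T_HG2)
    (hMU : Pool.Agent.H22.G.T_MU) (hHB : Pool.Agent.H22.G.T_HB)
    (hCBN : T_CBN) (hTE1 : T_TE1x) (hTE2 : T_TE2) (hTEJ : T_TEJ) (hTLS : T_TLS)
    (hAMU : T_AMU) (hALG4 : T_ALG4) : Pool.Agent.H82.G4.T_TEN43 := fun L =>
  tenq_of_tenj 3 L (8 / 9) (pf_TENJ hPG4 hHG2 hMU hHB hCBN hTE1 hTE2 hTEJ hTLS hAMU 4 3 L (8 / 9)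
    (XT 4) (by norm_num) (by norm_num) (xq_XT 4 3) (algX_of_algJ 4 3 (8 / 9) (XT 4) hALG4))

end Pool.Agent.H94.G4
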