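import Pool.Agent.H83.G.TenB
import Pool.Agent.H22.G4.Targets

/-!
Group G4 (general exponent `p = 2 + x`): numerical part of the two-ends case. Copies of lemmas of
helper83 (`Pool.Agent.H83.G.TEN`).
-/

set_option autoImplicit false

namespace Pool.Agent.H94.G4

open Pool.Agent.H83.G Pool.Agent.H83.G.TEN Pool.Agent.H22.G4 MeasureTheory Set
open scoped ENNReal NNReal RealInnerProductSpace

/-- choice of the constants -/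
theorem constsx (K b₀ B C₁ C₂ C₃ C₄ C₅ C₆ C₇ C₈ C₉ : ℝ) (hK : 1 ≤ K) (hb₀ : 0 < b₀) (hB : 1 ≤ B)
    (h1 : 1 ≤ C₁) (h2 : 1 ≤ C₂) (h3 : 1 ≤ C₃) (h4 : 1 ≤ C₄) (h5 : 1 ≤ C₅) (h6 : 1 ≤ C₆)
    (h7 : 0 < C₇) (h8 : 0 < C₈) (h9 : 1 ≤ C₉) : ∃ CL C : ℝ, 1 ≤ CL ∧ 2 * C₁ ≤ CL ∧ C₂ ≤ CL ∧
      C₃ ≤ CL ∧ C₄ * (2 * C₉) ≤ CL ∧ C₅ ≤ CL ∧ 2 * C₆ ≤ CL ∧ C₈ ≤ CL ∧ B ≤ CL ∧ 1 ≤ C ∧
      C₁ ≤ C ∧ C₂ ≤ C ∧ C₄ ≤ C ∧ C₇ / b₀ < C ∧ 2 * K ≤ C ∧ C₉ * CL ^ 4 ≤ C := by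
  have a1 : 0 < C₇ / b₀ := div_pos h7 hb₀
  have a2 : 0 ≤ C₄ * (2 * C₉) := by positivity
  refine ⟨2 * C₁ + C₂ + C₃ + C₄ * (2 * C₉) + C₅ + 2 * C₆ + C₈ + B,
    C₁ + C₂ + C₄ + C₇ / b₀ + 2 * K +
      C₉ * (2 * C₁ + C₂ + C₃ + C₄ * (2 * C₉) + C₅ + 2 * C₆ + C₈ + B) ^ 4, ?_⟩
  have a3 : 0 ≤ C₉ * (2 * C₁ + C₂ + C₃ + C₄ * (2 * C₉) + C₅ + 2 * C₆ + C₈ + B) ^ 4 := by
    positivity
  generalize C₉ * (2 * C₁ + C₂ + C₃ + C₄ * (2 * C₉) + C₅ + 2 * C₆ + C₈ + B) ^ 4 = x at a3 ⊢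
  generalize C₄ * (2 * C₉) = y at a2 ⊢
  refine ⟨?_, ?_, ?_, ?_, ?_, ?_, ?_, ?_, ?_, ?_, ?_, ?_, ?_, ?_, ?_, ?_⟩ <;> linarith

/-- final numerical step -/
theorem final_numx (m : ℕ) (xx δ ε₀ R CL C C₉ A En x N H : ℝ) (c1 : ℝ)
    (hδ : 0 < δ) (hε : 0 < ε₀) (hR1 : 1 ≤ R) (hA : 0 < A) (hEn : 0 < En) (hC₉ : 1 ≤ C₉)
    (hc1 : c1 = 1000 * ((m : ℝ) + 2)) (hCC : C₉ * CL ^ 4 ≤ C) (hCL : 1 ≤ CL) (hH : 0 < H)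
    (hx : x ≤ C₉ * R ^ δ * N)
    (hN : N * H ^ (2 + xx) ≤ (CL * R ^ (c1 * (δ + ε₀))) ^ 4 * A ^ xx * R ^ ((m : ℝ) * xx / 2) *
      (En * R⁻¹)) :
    x * H ^ (2 + xx) ≤ C * R ^ ((lb m - 1) * (δ + ε₀)) * A ^ xx * R ^ (m * xx / 2 - 1) * En := by
  have hR0 : 0 < R := by linarith
  have hHp : 0 ≤ H ^ (2 + xx) := by positivity
  have hCL0 : 0 ≤ CL := by linarith
  have hC0 : 0 ≤ C := le_trans (by positivity) hCC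
  have e1 : R ^ ((m : ℝ) * xx / 2) * (En * R⁻¹) = R ^ (m * xx / 2 - 1) * En := by
    have : R ^ ((m : ℝ) * xx / 2) = R ^ (m * xx / 2 - 1) * R := by
      rw [show (m : ℝ) * xx / 2 = (m * xx / 2 - 1) + 1 by ring, Real.rpow_add hR0, Real.rpow_one,
        show (m * xx / 2 - 1 : ℝ) + 1 - 1 = m * xx / 2 - 1 by ring]
    rw [this]; field_simp
  have e2 : (CL * R ^ (c1 * (δ + ε₀))) ^ 4 = CL ^ 4 * R ^ (4 * c1 * (δ + ε₀)) := by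
    rw [mul_pow, ← Real.rpow_natCast (R ^ (c1 * (δ + ε₀))) 4, ← Real.rpow_mul hR0.le]
    congr 2; push_cast; ring
  have e3 : R ^ δ * R ^ (4 * c1 * (δ + ε₀)) ≤ R ^ ((lb m - 1) * (δ + ε₀)) := by
    rw [← Real.rpow_add hR0]
    refine Real.rpow_le_rpow_of_exponent_le hR1 ?_
    have hm' : (0 : ℝ) ≤ m := Nat.cast_nonneg m
    have a1 : 4 * c1 + 1 ≤ lb m - 1 := by
      rw [hc1]; unfold lb; nlinarith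
    have a2 : 0 < δ + ε₀ := by linarith
    nlinarith
  calc x * H ^ (2 + xx) ≤ (C₉ * R ^ δ * N) * H ^ (2 + xx) :=
        mul_le_mul_of_nonneg_right hx hHp
    _ = (C₉ * R ^ δ) * (N * H ^ (2 + xx)) := by ring
    _ ≤ (C₉ * R ^ δ) * ((CL * R ^ (c1 * (δ + ε₀))) ^ 4 * A ^ xx * R ^ ((m : ℝ) * xx / 2) *
          (En * R⁻¹)) := mul_le_mul_of_nonneg_left hN (by positivity)
    _ = (C₉ * CL ^ 4) * (R ^ δ * R ^ (4 * c1 * (δ + ε₀))) * A ^ xx *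
          (R ^ ((m : ℝ) * xx / 2) * (En * R⁻¹)) := by rw [e2]; ring
    _ = (C₉ * CL ^ 4) * (R ^ δ * R ^ (4 * c1 * (δ + ε₀))) * A ^ xx *
          (R ^ (m * xx / 2 - 1) * En) := by rw [e1]
    _ ≤ C * R ^ ((lb m - 1) * (δ + ε₀)) * A ^ xx * (R ^ (m * xx / 2 - 1) * En) := by
        gcongr
    _ = _ := by ring

/-- the hypotheses of the linear programme (a copy of `Pool.Agent.H83.G.TEN.core`, helper83, for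
every `m`) -/
theorem corex (m : ℕ)
    (δ ε₀ R CL C₁ C₂ C₃ C₄ C₅ C₆ C₈ C₉ B A En N Q H c1 : ℝ) (M₁ M t b a sc : Fin 3 → ℝ)
    (hc1 : c1 = 1000 * ((m : ℝ) + 2)) (hδ : 0 < δ) (hε : 0 < ε₀) (hR1 : 1 ≤ R) (hA : 0 < A)
    (hEn : 0 < En) (hN : 0 < N) (hQ : 0 < Q) (hH : 0 < H)
    (k0 : 1 ≤ CL) (k1 : 2 * C₁ ≤ CL) (k2 : C₂ ≤ CL) (k3 : C₃ ≤ CL) (k4 : C₄ * (2 * C₉) ≤ CL)
    (k5 : C₅ ≤ CL) (k6 : 2 * C₆ ≤ CL) (k8 : C₈ ≤ CL) (kB : B ≤ CL)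
    (p1 : 1 ≤ C₁) (p2 : 1 ≤ C₂) (p3 : 1 ≤ C₃) (p4 : 1 ≤ C₄) (p5 : 1 ≤ C₅) (p6 : 1 ≤ C₆)
    (p9 : 1 ≤ C₉) (pB : 1 ≤ B)
    (hM₁ : ∀ i, 0 < M₁ i) (hM : ∀ i, 0 < M i) (ht : ∀ i, 0 < t i) (hb : ∀ i, 0 < b i)
    (ha : ∀ i, 0 < a i)
    (e1 : ∀ i, t i * b i * a i ^ 2 * R ^ ((m : ℝ) / 2) ≤ En * R⁻¹)
    (e2 : En ≤ B * R ^ (lo m * δ) * (A ^ 2 * R ^ ((m : ℝ) + 2)))
    (e3 : ∀ i, Q * M i ≤ C₅ * R ^ (1 / 2 + 2 * ((m : ℝ) + 1) * δ) * t i)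
    (e4 : ∀ i j, i ≠ j → Q * M i * M j ^ 2 ≤ C₄ * (2 * (C₉ * R ^ (2 * δ))) *
      R ^ (6 * ((m : ℝ) + 2) * (δ + ε₀)) * t i * t j)
    (e5 : N * (M₁ 0 * M₁ 1 * M₁ 2) ≤ C₃ * R ^ (6 * δ) * Q *
      ((M 0 * b 0) * (M 1 * b 1) * (M 2 * b 2)) * R ^ (((m : ℝ) - 1) / 2))
    (e6 : ∀ i, N * H ^ 2 ≤ C₂ * R ^ (2 * lo m * δ) * Q * M i * b i * a i ^ 2 *
      R ^ (((m : ℝ) + 1) / 2))
    (e7 : ∀ i, N * H ^ (2 * ((m : ℝ) + 2) / m) ≤ C₁ * R ^ (4 * lo m * (δ + ε₀)) *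
      M₁ i ^ (2 / (m : ℝ)) * a i ^ (2 * ((m : ℝ) + 2) / m) * sc i * R ^ (((m : ℝ) + 2) / 2))
    (e7' : ∀ i, sc i ≤ t i * (2 * b i))
    (e8 : ∀ i, M₁ i ≤ 2 * M i * (C₆ * R ^ (((m : ℝ) + 2) * δ)))
    (e9 : ∀ i, a i ≤ C₈ * A) (p8 : 0 < C₈) :
    ∃ L : ℝ, L = CL * R ^ (c1 * (δ + ε₀)) ∧ 1 ≤ L ∧ 0 < En * R⁻¹ ∧
      (∀ i, t i * b i * a i ^ 2 * R ^ ((m : ℝ) / 2) ≤ L * (En * R⁻¹)) ∧
      (En * R⁻¹) ≤ L * A ^ 2 * R ^ ((m : ℝ) + 1) ∧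
      (∀ i, Q * M i ≤ L * t i * R ^ (1 / 2 : ℝ)) ∧
      (∀ i j, i ≠ j → Q * M i * M j ^ 2 ≤ L * t i * t j) ∧
      N * (M₁ 0 * M₁ 1 * M₁ 2) ≤
        L * Q * ((M 0 * b 0) * (M 1 * b 1) * (M 2 * b 2)) * R ^ (((m : ℝ) - 1) / 2) ∧
      (∀ i, N * H ^ 2 ≤ L * Q * M i * b i * a i ^ 2 * R ^ (((m : ℝ) + 1) / 2)) ∧
      (∀ i, N * H ^ (2 * ((m : ℝ) + 2) / m) ≤
        L * M₁ i ^ (2 / (m : ℝ)) * a i ^ (2 * ((m : ℝ) + 2) / m) * t i * b i *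
          R ^ (((m : ℝ) + 2) / 2)) ∧
      (∀ i, M₁ i ≤ L * M i) ∧ ∀ i, a i ≤ L * A := by
  have hR0 : 0 < R := by linarith
  set L : ℝ := CL * R ^ (c1 * (δ + ε₀)) with hL
  have hde : 0 < δ + ε₀ := by linarith
  have hc0 : 0 ≤ c1 := by rw [hc1]; positivity
  have hRc : 1 ≤ R ^ (c1 * (δ + ε₀)) := Real.one_le_rpow hR1 (by positivity)
  have hL1 : 1 ≤ L := by
    have := mul_le_mul k0 hRc zero_le_one (by linarith)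
    linarith
  have hCLL : CL ≤ L := by
    have := mul_le_mul_of_nonneg_left hRc (by linarith : (0:ℝ) ≤ CL)
    linarith
  have hE0 : 0 < En * R⁻¹ := by positivity
  have hlo : lo m = 100 * ((m : ℝ) + 2) := rfl
  refine ⟨L, rfl, hL1, hE0, ?_, ?_, ?_, ?_, ?_, ?_, ?_, ?_, ?_⟩
  · intro i
    refine (e1 i).trans ?_
    exact le_mul_of_one_le_left hE0.le hL1
  · -- E ≤ L A² R^(m+1)
    have f1 : B * R ^ (lo m * δ) ≤ L := by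
      refine lossle hR1 (by linarith) kB ?_
      rw [hlo, hc1]
      nlinarith [mul_nonneg (by positivity : (0:ℝ) ≤ (m : ℝ) + 2) hδ.le,
        mul_nonneg (by positivity : (0:ℝ) ≤ (m : ℝ) + 2) hε.le]
    have f2 : R ^ ((m : ℝ) + 2) * R⁻¹ = R ^ ((m : ℝ) + 1) := by
      rw [← Real.rpow_neg_one R, ← Real.rpow_add hR0]; congr 1; ring
    calc En * R⁻¹ ≤ B * R ^ (lo m * δ) * (A ^ 2 * R ^ ((m : ℝ) + 2)) * R⁻¹ := by gcongr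
      _ = (B * R ^ (lo m * δ)) * (A ^ 2 * (R ^ ((m : ℝ) + 2) * R⁻¹)) := by ring
      _ ≤ L * (A ^ 2 * (R ^ ((m : ℝ) + 2) * R⁻¹)) := by gcongr
      _ = L * A ^ 2 * R ^ ((m : ℝ) + 1) := by rw [f2]; ring
  · intro i
    have f1 : C₅ * R ^ (2 * ((m : ℝ) + 1) * δ) ≤ L := by
      refine lossle hR1 (by linarith) k5 ?_
      rw [hc1]
      nlinarith [mul_nonneg (by positivity : (0:ℝ) ≤ (m : ℝ) + 2) hδ.le,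
        mul_nonneg (by positivity : (0:ℝ) ≤ (m : ℝ) + 2) hε.le]
    have f2 : R ^ (1 / 2 + 2 * ((m : ℝ) + 1) * δ) =
        R ^ (2 * ((m : ℝ) + 1) * δ) * R ^ (1 / 2 : ℝ) := by
      rw [← Real.rpow_add hR0]; congr 1; ring
    calc Q * M i ≤ C₅ * R ^ (1 / 2 + 2 * ((m : ℝ) + 1) * δ) * t i := e3 i
      _ = (C₅ * R ^ (2 * ((m : ℝ) + 1) * δ)) * (t i * R ^ (1 / 2 : ℝ)) := by rw [f2]; ring
      _ ≤ L * (t i * R ^ (1 / 2 : ℝ)) := by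
          have := ht i
          gcongr
      _ = L * t i * R ^ (1 / 2 : ℝ) := by ring
  · intro i j hij
    have f1 : C₄ * (2 * C₉) * R ^ (2 * δ + 6 * ((m : ℝ) + 2) * (δ + ε₀)) ≤ L := by
      refine lossle hR1 (by positivity) k4 ?_
      rw [hc1]
      nlinarith [mul_nonneg (by positivity : (0:ℝ) ≤ (m : ℝ) + 2) hδ.le,
        mul_nonneg (by positivity : (0:ℝ) ≤ (m : ℝ) + 2) hε.le]
    have f2 : R ^ (2 * δ + 6 * ((m : ℝ) + 2) * (δ + ε₀)) =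
        R ^ (2 * δ) * R ^ (6 * ((m : ℝ) + 2) * (δ + ε₀)) := by
      rw [← Real.rpow_add hR0]
    calc Q * M i * M j ^ 2 ≤ C₄ * (2 * (C₉ * R ^ (2 * δ))) *
          R ^ (6 * ((m : ℝ) + 2) * (δ + ε₀)) * t i * t j := e4 i j hij
      _ = (C₄ * (2 * C₉) * R ^ (2 * δ + 6 * ((m : ℝ) + 2) * (δ + ε₀))) * (t i * t j) := by
          rw [f2]; ring
      _ ≤ L * (t i * t j) := by
          have h1 := ht i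
          have h2 := ht j
          gcongr
      _ = L * t i * t j := by ring
  · have f1 : C₃ * R ^ (6 * δ) ≤ L := by
      refine lossle hR1 (by linarith) k3 ?_
      rw [hc1]
      nlinarith [mul_nonneg (by positivity : (0:ℝ) ≤ (m : ℝ)) hδ.le,
        mul_nonneg (by positivity : (0:ℝ) ≤ (m : ℝ) + 2) hε.le]
    have h0 := mul_pos (mul_pos (mul_pos (hM 0) (hb 0)) (mul_pos (hM 1) (hb 1)))
      (mul_pos (hM 2) (hb 2))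
    calc N * (M₁ 0 * M₁ 1 * M₁ 2) ≤ C₃ * R ^ (6 * δ) * Q *
      ((M 0 * b 0) * (M 1 * b 1) * (M 2 * b 2)) * R ^ (((m : ℝ) - 1) / 2) := e5
      _ ≤ L * Q * ((M 0 * b 0) * (M 1 * b 1) * (M 2 * b 2)) * R ^ (((m : ℝ) - 1) / 2) := by
          gcongr
  · intro i
    have f1 : C₂ * R ^ (2 * lo m * δ) ≤ L := by
      refine lossle hR1 (by linarith) k2 ?_
      rw [hlo, hc1]
      nlinarith [mul_nonneg (by positivity : (0:ℝ) ≤ (m : ℝ) + 2) hδ.le,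
        mul_nonneg (by positivity : (0:ℝ) ≤ (m : ℝ) + 2) hε.le]
    have h1 := hM i
    have h2 := hb i
    have h3 := ha i
    calc N * H ^ 2 ≤ _ := e6 i
      _ ≤ L * Q * M i * b i * a i ^ 2 * R ^ (((m : ℝ) + 1) / 2) := by gcongr
  · intro i
    have f1 : 2 * C₁ * R ^ (4 * lo m * (δ + ε₀)) ≤ L := by
      refine lossle hR1 (by linarith) k1 ?_
      rw [hlo, hc1]
      nlinarith [mul_nonneg (by positivity : (0:ℝ) ≤ (m : ℝ) + 2) hde.le]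
    have h1 := ht i
    have h2 := hb i
    have h3 := ha i
    have h4 := hM₁ i
    calc N * H ^ (2 * ((m : ℝ) + 2) / m) ≤ _ := e7 i
      _ ≤ C₁ * R ^ (4 * lo m * (δ + ε₀)) *
          M₁ i ^ (2 / (m : ℝ)) * a i ^ (2 * ((m : ℝ) + 2) / m) * (t i * (2 * b i)) *
            R ^ (((m : ℝ) + 2) / 2) := by
          gcongr
          exact e7' i
      _ = (2 * C₁ * R ^ (4 * lo m * (δ + ε₀))) * (M₁ i ^ (2 / (m : ℝ)) *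
          a i ^ (2 * ((m : ℝ) + 2) / m) * t i * b i * R ^ (((m : ℝ) + 2) / 2)) := by ring
      _ ≤ L * (M₁ i ^ (2 / (m : ℝ)) *
          a i ^ (2 * ((m : ℝ) + 2) / m) * t i * b i * R ^ (((m : ℝ) + 2) / 2)) := by gcongr
      _ = _ := by ring
  · intro i
    have f1 : 2 * C₆ * R ^ (((m : ℝ) + 2) * δ) ≤ L := by
      refine lossle hR1 (by linarith) k6 ?_
      rw [hc1]
      nlinarith [mul_nonneg (by positivity : (0:ℝ) ≤ (m : ℝ) + 2) hδ.le,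
        mul_nonneg (by positivity : (0:ℝ) ≤ (m : ℝ) + 2) hε.le]
    have h1 := hM i
    calc M₁ i ≤ 2 * M i * (C₆ * R ^ (((m : ℝ) + 2) * δ)) := e8 i
      _ = (2 * C₆ * R ^ (((m : ℝ) + 2) * δ)) * M i := by ring
      _ ≤ L * M i := by gcongr
  · intro i
    refine (e9 i).trans ?_
    gcongr
    exact k8.trans hCLL

/-- everything numerical is fed to the linear programme -/
theorem corealg (m : ℕ) (xx : ℝ) (hALG : T_ALGx m xx)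
    (δ ε₀ R CL C₁ C₂ C₃ C₄ C₅ C₆ C₈ C₉ B A En N Q H c1 : ℝ) (M₁ M t b a sc : Fin 3 → ℝ)
    (hc1 : c1 = 1000 * ((m : ℝ) + 2)) (hδ : 0 < δ) (hε : 0 < ε₀) (hR1 : 1 ≤ R) (hA : 0 < A)
    (hEn : 0 < En) (hN : 0 < N) (hQ : 0 < Q) (hH : 0 < H)
    (k0 : 1 ≤ CL) (k1 : 2 * C₁ ≤ CL) (k2 : C₂ ≤ CL) (k3 : C₃ ≤ CL) (k4 : C₄ * (2 * C₉) ≤ CL)
    (k5 : C₅ ≤ CL) (k6 : 2 * C₆ ≤ CL) (k8 : C₈ ≤ CL) (kB : B ≤ CL)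
    (p1 : 1 ≤ C₁) (p2 : 1 ≤ C₂) (p3 : 1 ≤ C₃) (p4 : 1 ≤ C₄) (p5 : 1 ≤ C₅) (p6 : 1 ≤ C₆)
    (p9 : 1 ≤ C₉) (pB : 1 ≤ B)
    (hM₁ : ∀ i, 0 < M₁ i) (hM : ∀ i, 0 < M i) (ht : ∀ i, 0 < t i) (hb : ∀ i, 1 ≤ b i)
    (ha : ∀ i, 0 < a i)
    (e1 : ∀ i, t i * b i * a i ^ 2 * R ^ ((m : ℝ) / 2) ≤ En * R⁻¹)
    (e2 : En ≤ B * R ^ (lo m * δ) * (A ^ 2 * R ^ ((m : ℝ) + 2)))
    (e3 : ∀ i, Q * M i ≤ C₅ * R ^ (1 / 2 + 2 * ((m : ℝ) + 1) * δ) * t i)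
    (e4 : ∀ i j, i ≠ j → Q * M i * M j ^ 2 ≤ C₄ * (2 * (C₉ * R ^ (2 * δ))) *
      R ^ (6 * ((m : ℝ) + 2) * (δ + ε₀)) * t i * t j)
    (e5 : N * (M₁ 0 * M₁ 1 * M₁ 2) ≤ C₃ * R ^ (6 * δ) * Q *
      ((M 0 * b 0) * (M 1 * b 1) * (M 2 * b 2)) * R ^ (((m : ℝ) - 1) / 2))
    (e6 : ∀ i, N * H ^ 2 ≤ C₂ * R ^ (2 * lo m * δ) * Q * M i * b i * a i ^ 2 *
      R ^ (((m : ℝ) + 1) / 2))
    (e7 : ∀ i, N * H ^ (2 * ((m : ℝ) + 2) / m) ≤ C₁ * R ^ (4 * lo m * (δ + ε₀)) *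
      M₁ i ^ (2 / (m : ℝ)) * a i ^ (2 * ((m : ℝ) + 2) / m) * sc i * R ^ (((m : ℝ) + 2) / 2))
    (e7' : ∀ i, sc i ≤ t i * (2 * b i))
    (e8 : ∀ i, M₁ i ≤ 2 * M i * (C₆ * R ^ (((m : ℝ) + 2) * δ)))
    (e9 : ∀ i, a i ≤ C₈ * A) (p8 : 0 < C₈) :
    N * H ^ (2 + xx) ≤ (CL * R ^ (c1 * (δ + ε₀))) ^ 4 * A ^ xx * R ^ ((m : ℝ) * xx / 2) *
      (En * R⁻¹) := by
  obtain ⟨L, hL, hL1, hE0, q1, q2, q3, q4, q5, q6, q7, q8, q9⟩ := corex m δ ε₀ R CL C₁ C₂ C₃ C₄ C₅ C₆ C₈ C₉ B A En N Q H c1 M₁ M t b a sc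
    hc1 hδ hε hR1 hA hEn hN hQ hH k0 k1 k2 k3 k4 k5 k6 k8 kB p1 p2 p3 p4 p5 p6 p9 pB hM₁ hM ht
    (fun i => lt_of_lt_of_le one_pos (hb i)) ha e1 e2 e3 e4 e5 e6 e7 e7' e8 e9 p8
  have key := hALG N H Q (En * R⁻¹) A L R M₁ M t b a hN hH hQ hE0 hA hL1 hR1 hM₁ hM ht hb ha
    q1 q2 q3 q4 q5 q6 q7 q8 q9
  rw [hL] at key
  exact key

end Pool.Agent.H94.G4
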