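import Pool.Agent.H94.G4.Core
import Pool.Agent.H22.G4.TargetsK

/-!
Group G4, `j` functions: numerical part of the two-ends case, with a possible extra constraint in
the final linear programme.
-/

set_option autoImplicit false

namespace Pool.Agent.H94.G4

open Pool.Agent.H83.G Pool.Agent.H83.G.TEN Pool.Agent.H22.G4 MeasureTheory Set
open scoped ENNReal NNReal RealInnerProductSpace

/-- an extra constraint `XC N H q A L R M b a` for the linear programme -/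
abbrev XCon (j : ℕ) : Type :=
  ℝ → ℝ → ℝ → ℝ → ℝ → ℝ → (Fin j → ℝ) → (Fin j → ℝ) → (Fin j → ℝ) → Prop

/-- the final linear programme with `j` functions and an extra constraint -/
def T_ALGX (j m : ℕ) (x : ℝ) (XC : XCon j) : Prop := ∀ (N H q E A L R : ℝ)
  (M1 M t b a : Fin j → ℝ),
  0 < N → 0 < H → 0 < q → 0 < E → 0 < A → 1 ≤ L → 1 ≤ R →
  (∀ i, 0 < M1 i) → (∀ i, 0 < M i) → (∀ i, 0 < t i) → (∀ i, 1 ≤ b i) → (∀ i, 0 < a i) →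
  (∀ i, t i * b i * a i ^ 2 * R ^ ((m : ℝ) / 2) ≤ L * E) →
  E ≤ L * A ^ 2 * R ^ ((m : ℝ) + 1) →
  (∀ i, q * M i ≤ L * t i * R ^ (1 / 2 : ℝ)) →
  (∀ i i', i ≠ i' → q * M i * M i' ^ 2 ≤ L * t i * t i') →
  N * (∏ i, M1 i) ≤ L * q * (∏ i, (M i * b i)) * R ^ (((m : ℝ) + 2 - j) / 2) →
  (∀ i, N * H ^ 2 ≤ L * q * M i * b i * a i ^ 2 * R ^ (((m : ℝ) + 1) / 2)) →
  (∀ i, N * H ^ (2 * ((m : ℝ) + 2) / m) ≤
    L * M1 i ^ (2 / (m : ℝ)) * a i ^ (2 * ((m : ℝ) + 2) / m) * t i * b i *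
      R ^ (((m : ℝ) + 2) / 2)) →
  (∀ i, M1 i ≤ L * M i) → (∀ i, a i ≤ L * A) → XC N H q A L R M b a →
  N * H ^ (2 + x) ≤ L ^ 5 * A ^ x * R ^ ((m : ℝ) * x / 2) * E

/-- no extra constraint -/
def XT (j : ℕ) : XCon j := fun _ _ _ _ _ _ _ _ _ => True

/-- the constraints given by four-linear restriction in the cubes of side `R^(1/2)` (only used for
`m = 2`) and by the bound for the supremum -/
def XK (m : ℕ) : XCon 4 := fun N H q A L R M b a =>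
  (m = 2 → N * H ^ (8 / 3 : ℝ) ≤
    L * q * ∏ i, (M i * b i * a i ^ 2 * R ^ ((m : ℝ) / 2)) ^ (1 / 3 : ℝ)) ∧
  H ≤ L * A * R ^ ((m : ℝ) / 2)

theorem algX_of_algJ (j m : ℕ) (x : ℝ) (XC : XCon j) (h : T_ALGJ j m x) : T_ALGX j m x XC := by
  intro N H q E A L R M1 M t b a hN hH hq hE hA hL hR hM1 hM ht hb ha q1 q2 q3 q4 q5 q6 q7 q8 q9 _
  refine (h N H q E A L R M1 M t b a hN hH hq hE hA hL hR hM1 hM ht hb ha q1 q2 q3 q4 q5 q6 q7 q8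
    q9).trans ?_
  have hL0 : 0 < L := by linarith
  have hR0 : 0 < R := by linarith
  gcongr
  norm_num

theorem algX_of_algK (m : ℕ) (x : ℝ) (h : T_ALGK m x) : T_ALGX 4 m x (XK m) := by
  intro N H q E A L R M1 M t b a hN hH hq hE hA hL hR hM1 hM ht hb ha q1 q2 q3 q4 q5 q6 q7 q8 q9 qX
  refine h N H q E A L R M1 M t b a hN hH hq hE hA hL hR hM1 hM ht hb ha q1 q2 q3 q4 ?_ q6 q7
    qX.1 q8 q9 qX.2
  have e : ((m : ℝ) + 2 - ((4 : ℕ) : ℝ)) / 2 = ((m : ℝ) - 2) / 2 := by push_cast; ring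
  rw [e] at q5
  exact q5

/-- choice of the constants -/
theorem constsJ (K b₀ B C₁ C₂ C₃ C₄ C₅ C₆ C₇ C₈ C₉ : ℝ) (hK : 1 ≤ K) (hb₀ : 0 < b₀) (hB : 1 ≤ B)
    (h1 : 1 ≤ C₁) (h2 : 1 ≤ C₂) (h3 : 1 ≤ C₃) (h4 : 1 ≤ C₄) (h5 : 1 ≤ C₅) (h6 : 1 ≤ C₆)
    (h7 : 0 < C₇) (h8 : 0 < C₈) (h9 : 1 ≤ C₉) : ∃ CL C : ℝ, 1 ≤ CL ∧ 2 * C₁ ≤ CL ∧ C₂ ≤ CL ∧
      C₃ ≤ CL ∧ C₄ * (2 * C₉) ≤ CL ∧ C₅ ≤ CL ∧ 2 * C₆ ≤ CL ∧ C₈ ≤ CL ∧ B ≤ CL ∧ 1 ≤ C ∧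
      C₁ ≤ C ∧ C₂ ≤ C ∧ C₄ ≤ C ∧ C₇ / b₀ < C ∧ 2 * K ≤ C ∧ C₉ * CL ^ 5 ≤ C := by
  have a1 : 0 < C₇ / b₀ := div_pos h7 hb₀
  have a2 : 0 ≤ C₄ * (2 * C₉) := by positivity
  refine ⟨2 * C₁ + C₂ + C₃ + C₄ * (2 * C₉) + C₅ + 2 * C₆ + C₈ + B,
    C₁ + C₂ + C₄ + C₇ / b₀ + 2 * K +
      C₉ * (2 * C₁ + C₂ + C₃ + C₄ * (2 * C₉) + C₅ + 2 * C₆ + C₈ + B) ^ 5, ?_⟩
  have a3 : 0 ≤ C₉ * (2 * C₁ + C₂ + C₃ + C₄ * (2 * C₉) + C₅ + 2 * C₆ + C₈ + B) ^ 5 := by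
    positivity
  generalize C₉ * (2 * C₁ + C₂ + C₃ + C₄ * (2 * C₉) + C₅ + 2 * C₆ + C₈ + B) ^ 5 = x at a3 ⊢
  generalize C₄ * (2 * C₉) = y at a2 ⊢
  refine ⟨?_, ?_, ?_, ?_, ?_, ?_, ?_, ?_, ?_, ?_, ?_, ?_, ?_, ?_, ?_, ?_⟩ <;> linarith

/-- final numerical step -/
theorem final_numJ (m : ℕ) (xx δ ε₀ R CL C C₉ A En x N H : ℝ) (c1 : ℝ)
    (hδ : 0 < δ) (hε : 0 < ε₀) (hR1 : 1 ≤ R) (hA : 0 < A) (hEn : 0 < En) (hC₉ : 1 ≤ C₉)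
    (hc1 : c1 = 1000 * ((m : ℝ) + 2)) (hCC : C₉ * CL ^ 5 ≤ C) (hCL : 1 ≤ CL) (hH : 0 < H)
    (hx : x ≤ C₉ * R ^ δ * N)
    (hN : N * H ^ (2 + xx) ≤ (CL * R ^ (c1 * (δ + ε₀))) ^ 5 * A ^ xx * R ^ ((m : ℝ) * xx / 2) *
      (En * R⁻¹)) :
    x * H ^ (2 + xx) ≤ C * R ^ ((lb m - 1) * (δ + ε₀)) * A ^ xx * R ^ (m * xx / 2 - 1) * En := by
  have hR0 : 0 < R := by linarith
  have hHp : 0 ≤ H ^ (2 + xx) := by positivity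
  have hCL0 : 0 ≤ CL := by linarith
  have hC0 : 0 ≤ C := le_trans (by positivity) hCC
  have e1 : R ^ ((m : ℝ) * xx / 2) * (En * R⁻¹) = R ^ (m * xx / 2 - 1) * En := by
    have : R ^ ((m : ℝ) * xx / 2) = R ^ (m * xx / 2 - 1) * R := by
      rw [show (m : ℝ) * xx / 2 = (m * xx / 2 - 1) + 1 by ring, Real.rpow_add hR0, Real.rpow_one,
        show (m * xx / 2 - 1 : ℝ) + 1 - 1 = m * xx / 2 - 1 by ring]
    rw [this]; field_simp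
  have e2 : (CL * R ^ (c1 * (δ + ε₀))) ^ 5 = CL ^ 5 * R ^ (5 * c1 * (δ + ε₀)) := by
    rw [mul_pow, ← Real.rpow_natCast (R ^ (c1 * (δ + ε₀))) 5, ← Real.rpow_mul hR0.le]
    congr 2; push_cast; ring
  have e3 : R ^ δ * R ^ (5 * c1 * (δ + ε₀)) ≤ R ^ ((lb m - 1) * (δ + ε₀)) := by
    rw [← Real.rpow_add hR0]
    refine Real.rpow_le_rpow_of_exponent_le hR1 ?_
    have hm' : (0 : ℝ) ≤ m := Nat.cast_nonneg m
    have a1 : 5 * c1 + 1 ≤ lb m - 1 := by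
      rw [hc1]; unfold lb; nlinarith
    have a2 : 0 < δ + ε₀ := by linarith
    nlinarith
  calc x * H ^ (2 + xx) ≤ (C₉ * R ^ δ * N) * H ^ (2 + xx) :=
        mul_le_mul_of_nonneg_right hx hHp
    _ = (C₉ * R ^ δ) * (N * H ^ (2 + xx)) := by ring
    _ ≤ (C₉ * R ^ δ) * ((CL * R ^ (c1 * (δ + ε₀))) ^ 5 * A ^ xx * R ^ ((m : ℝ) * xx / 2) *
          (En * R⁻¹)) := mul_le_mul_of_nonneg_left hN (by positivity)
    _ = (C₉ * CL ^ 5) * (R ^ δ * R ^ (5 * c1 * (δ + ε₀))) * A ^ xx *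
          (R ^ ((m : ℝ) * xx / 2) * (En * R⁻¹)) := by rw [e2]; ring
    _ = (C₉ * CL ^ 5) * (R ^ δ * R ^ (5 * c1 * (δ + ε₀))) * A ^ xx *
          (R ^ (m * xx / 2 - 1) * En) := by rw [e1]
    _ ≤ C * R ^ ((lb m - 1) * (δ + ε₀)) * A ^ xx * (R ^ (m * xx / 2 - 1) * En) := by
        gcongr
    _ = _ := by ring

/-- everything numerical is fed to the linear programme (a copy of
`Pool.Agent.H94.G4.corealg` with `j` functions) -/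
theorem corealgJ (j m : ℕ) (hj : j ≤ m + 2) (xx : ℝ) (XC : XCon j) (hALG : T_ALGX j m xx XC)
    (δ ε₀ R CL C₁ C₂ C₃ C₄ C₅ C₆ C₈ C₉ B A En N Q H c1 : ℝ) (M₁ M t b a sc : Fin j → ℝ)
    (hc1 : c1 = 1000 * ((m : ℝ) + 2)) (hδ : 0 < δ) (hε : 0 < ε₀) (hR1 : 1 ≤ R) (hA : 0 < A)
    (hEn : 0 < En) (hN : 0 < N) (hQ : 0 < Q) (hH : 0 < H)
    (k0 : 1 ≤ CL) (k1 : 2 * C₁ ≤ CL) (k2 : C₂ ≤ CL) (k3 : C₃ ≤ CL) (k4 : C₄ * (2 * C₉) ≤ CL)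
    (k5 : C₅ ≤ CL) (k6 : 2 * C₆ ≤ CL) (k8 : C₈ ≤ CL) (kB : B ≤ CL)
    (p1 : 1 ≤ C₁) (p2 : 1 ≤ C₂) (p3 : 1 ≤ C₃) (p4 : 1 ≤ C₄) (p5 : 1 ≤ C₅) (p6 : 1 ≤ C₆)
    (p9 : 1 ≤ C₉) (pB : 1 ≤ B)
    (hM₁ : ∀ i, 0 < M₁ i) (hM : ∀ i, 0 < M i) (ht : ∀ i, 0 < t i) (hb : ∀ i, 1 ≤ b i)
    (ha : ∀ i, 0 < a i)
    (e1 : ∀ i, t i * b i * a i ^ 2 * R ^ ((m : ℝ) / 2) ≤ En * R⁻¹)
    (e2 : En ≤ B * R ^ (lo m * δ) * (A ^ 2 * R ^ ((m : ℝ) + 2)))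
    (e3 : ∀ i, Q * M i ≤ C₅ * R ^ (1 / 2 + 2 * ((m : ℝ) + 1) * δ) * t i)
    (e4 : ∀ i i', i ≠ i' → Q * M i * M i' ^ 2 ≤ C₄ * (2 * (C₉ * R ^ (2 * δ))) *
      R ^ (6 * ((m : ℝ) + 2) * (δ + ε₀)) * t i * t i')
    (e5 : N * ∏ i, M₁ i ≤ C₃ * R ^ (2 * j * δ) * Q * (∏ i, (M i * b i)) *
      R ^ (((m : ℝ) + 2 - j) / 2))
    (e6 : ∀ i, N * H ^ 2 ≤ C₂ * R ^ (2 * lo m * δ) * Q * M i * b i * a i ^ 2 *
      R ^ (((m : ℝ) + 1) / 2))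
    (e7 : ∀ i, N * H ^ (2 * ((m : ℝ) + 2) / m) ≤ C₁ * R ^ (4 * lo m * (δ + ε₀)) *
      M₁ i ^ (2 / (m : ℝ)) * a i ^ (2 * ((m : ℝ) + 2) / m) * sc i * R ^ (((m : ℝ) + 2) / 2))
    (e7' : ∀ i, sc i ≤ t i * (2 * b i))
    (e8 : ∀ i, M₁ i ≤ 2 * M i * (C₆ * R ^ (((m : ℝ) + 2) * δ)))
    (e9 : ∀ i, a i ≤ C₈ * A)
    (e10 : ∀ L' : ℝ, C₂ * R ^ (2 * lo m * δ) ≤ L' → XC N H Q A L' R M b a) :
    N * H ^ (2 + xx) ≤ (CL * R ^ (c1 * (δ + ε₀))) ^ 5 * A ^ xx * R ^ ((m : ℝ) * xx / 2) *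
      (En * R⁻¹) := by
  have hR0 : 0 < R := by linarith
  have hb0 : ∀ i, 0 < b i := fun i => lt_of_lt_of_le one_pos (hb i)
  set L : ℝ := CL * R ^ (c1 * (δ + ε₀)) with hL
  have hde : 0 < δ + ε₀ := by linarith
  have hc0 : 0 ≤ c1 := by rw [hc1]; positivity
  have hRc : 1 ≤ R ^ (c1 * (δ + ε₀)) := Real.one_le_rpow hR1 (by positivity)
  have hL1 : 1 ≤ L := by
    have := mul_le_mul k0 hRc zero_le_one (by linarith)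
    linarith
  have hCLL : CL ≤ L := by
    have := mul_le_mul_of_nonneg_left hRc (by linarith : (0:ℝ) ≤ CL)
    linarith
  have hE0 : 0 < En * R⁻¹ := by positivity
  have hlo : lo m = 100 * ((m : ℝ) + 2) := rfl
  have mδ : 0 ≤ ((m : ℝ) + 2) * δ := by positivity
  have mε : 0 ≤ ((m : ℝ) + 2) * ε₀ := by positivity
  have mδ2 : δ ≤ ((m : ℝ) + 2) * δ := by
    have : (0 : ℝ) ≤ (m : ℝ) * δ := by positivity
    linarith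
  have hjm : (j : ℝ) ≤ m + 2 := by exact_mod_cast hj
  have hjδ : (j : ℝ) * δ ≤ ((m : ℝ) + 2) * δ := mul_le_mul_of_nonneg_right hjm hδ.le
  have f2' : C₂ * R ^ (2 * lo m * δ) ≤ L := by
    refine lossle hR1 (by linarith) k2 ?_
    rw [hlo, hc1]; linarith
  refine hALG N H Q (En * R⁻¹) A L R M₁ M t b a hN hH hQ hE0 hA hL1 hR1 hM₁ hM ht hb ha
    ?_ ?_ ?_ ?_ ?_ ?_ ?_ ?_ ?_ (e10 L f2')
  · intro i
    refine (e1 i).trans ?_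
    exact le_mul_of_one_le_left hE0.le hL1
  · -- E ≤ L A² R^(m+1)
    have f1 : B * R ^ (lo m * δ) ≤ L := by
      refine lossle hR1 (by linarith) kB ?_
      rw [hlo, hc1]; linarith
    have f2 : R ^ ((m : ℝ) + 2) * R⁻¹ = R ^ ((m : ℝ) + 1) := by
      rw [← Real.rpow_neg_one R, ← Real.rpow_add hR0]; congr 1; ring
    calc En * R⁻¹ ≤ B * R ^ (lo m * δ) * (A ^ 2 * R ^ ((m : ℝ) + 2)) * R⁻¹ := by gcongr
      _ = (B * R ^ (lo m * δ)) * (A ^ 2 * (R ^ ((m : ℝ) + 2) * R⁻¹)) := by ring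
      _ ≤ L * (A ^ 2 * (R ^ ((m : ℝ) + 2) * R⁻¹)) := by gcongr
      _ = L * A ^ 2 * R ^ ((m : ℝ) + 1) := by rw [f2]; ring
  · intro i
    have f1 : C₅ * R ^ (2 * ((m : ℝ) + 1) * δ) ≤ L := by
      refine lossle hR1 (by linarith) k5 ?_
      rw [hc1]; linarith
    have f2 : R ^ (1 / 2 + 2 * ((m : ℝ) + 1) * δ) =
        R ^ (2 * ((m : ℝ) + 1) * δ) * R ^ (1 / 2 : ℝ) := by
      rw [← Real.rpow_add hR0]; congr 1; ring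
    calc Q * M i ≤ C₅ * R ^ (1 / 2 + 2 * ((m : ℝ) + 1) * δ) * t i := e3 i
      _ = (C₅ * R ^ (2 * ((m : ℝ) + 1) * δ)) * (t i * R ^ (1 / 2 : ℝ)) := by rw [f2]; ring
      _ ≤ L * (t i * R ^ (1 / 2 : ℝ)) := by
          have := ht i
          gcongr
      _ = L * t i * R ^ (1 / 2 : ℝ) := by ring
  · intro i i' hij
    have f1 : C₄ * (2 * C₉) * R ^ (2 * δ + 6 * ((m : ℝ) + 2) * (δ + ε₀)) ≤ L := by
      refine lossle hR1 (by positivity) k4 ?_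
      rw [hc1]; linarith
    have f2 : R ^ (2 * δ + 6 * ((m : ℝ) + 2) * (δ + ε₀)) =
        R ^ (2 * δ) * R ^ (6 * ((m : ℝ) + 2) * (δ + ε₀)) := by
      rw [← Real.rpow_add hR0]
    calc Q * M i * M i' ^ 2 ≤ C₄ * (2 * (C₉ * R ^ (2 * δ))) *
          R ^ (6 * ((m : ℝ) + 2) * (δ + ε₀)) * t i * t i' := e4 i i' hij
      _ = (C₄ * (2 * C₉) * R ^ (2 * δ + 6 * ((m : ℝ) + 2) * (δ + ε₀))) * (t i * t i') := by
          rw [f2]; ring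
      _ ≤ L * (t i * t i') := by
          have h1 := ht i
          have h2 := ht i'
          gcongr
      _ = L * t i * t i' := by ring
  · have f1 : C₃ * R ^ (2 * j * δ) ≤ L := by
      refine lossle hR1 (by linarith) k3 ?_
      rw [hc1]; linarith
    have h0 : 0 < ∏ i, (M i * b i) := Finset.prod_pos fun i _ => mul_pos (hM i) (hb0 i)
    calc N * ∏ i, M₁ i ≤ C₃ * R ^ (2 * j * δ) * Q * (∏ i, (M i * b i)) *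
          R ^ (((m : ℝ) + 2 - j) / 2) := e5
      _ ≤ L * Q * (∏ i, (M i * b i)) * R ^ (((m : ℝ) + 2 - j) / 2) := by
          gcongr
  · intro i
    have h1 := hM i
    have h2 := hb0 i
    have h3 := ha i
    calc N * H ^ 2 ≤ _ := e6 i
      _ ≤ L * Q * M i * b i * a i ^ 2 * R ^ (((m : ℝ) + 1) / 2) := by gcongr
  · intro i
    have f1 : 2 * C₁ * R ^ (4 * lo m * (δ + ε₀)) ≤ L := by
      refine lossle hR1 (by linarith) k1 ?_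
      rw [hlo, hc1]; linarith
    have h1 := ht i
    have h2 := hb0 i
    have h3 := ha i
    have h4 := hM₁ i
    calc N * H ^ (2 * ((m : ℝ) + 2) / m) ≤ _ := e7 i
      _ ≤ C₁ * R ^ (4 * lo m * (δ + ε₀)) *
          M₁ i ^ (2 / (m : ℝ)) * a i ^ (2 * ((m : ℝ) + 2) / m) * (t i * (2 * b i)) *
            R ^ (((m : ℝ) + 2) / 2) := by
          gcongr
          exact e7' i
      _ = (2 * C₁ * R ^ (4 * lo m * (δ + ε₀))) * (M₁ i ^ (2 / (m : ℝ)) *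
          a i ^ (2 * ((m : ℝ) + 2) / m) * t i * b i * R ^ (((m : ℝ) + 2) / 2)) := by ring
      _ ≤ L * (M₁ i ^ (2 / (m : ℝ)) *
          a i ^ (2 * ((m : ℝ) + 2) / m) * t i * b i * R ^ (((m : ℝ) + 2) / 2)) := by gcongr
      _ = _ := by ring
  · intro i
    have f1 : 2 * C₆ * R ^ (((m : ℝ) + 2) * δ) ≤ L := by
      refine lossle hR1 (by linarith) k6 ?_
      rw [hc1]; linarith
    have h1 := hM i
    calc M₁ i ≤ 2 * M i * (C₆ * R ^ (((m : ℝ) + 2) * δ)) := e8 i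
      _ = (2 * C₆ * R ^ (((m : ℝ) + 2) * δ)) * M i := by ring
      _ ≤ L * M i := by gcongr
  · intro i
    refine (e9 i).trans ?_
    gcongr
    exact k8.trans hCLL

end Pool.Agent.H94.G4
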